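import Mathlib
import Pool.Agent.Y251.SF.Stm4

/-!
# Abelian step for power series (helper564)
-/

set_option autoImplicit false

open Complex Metric Set Filter Topology

namespace Pool.Agent.Y564.SF.Lo2

theorem lo2 : Pool.Agent.Y251.SF.S_LO2 := by
  intro φ R η hR hη hφ hb η' hη'
  obtain ⟨N, hN⟩ := Filter.eventually_atTop.1 hb
  obtain ⟨b, hbd⟩ : ∃ b : ℕ → ℂ, b = fun n => iteratedDeriv n φ 0 / (n.factorial : ℂ) := ⟨_, rfl⟩
  obtain ⟨S, hSd⟩ : ∃ S : ℝ, S = ∑ n ∈ Finset.range N, ‖b n‖ * R ^ n := ⟨_, rfl⟩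
  have hS : 0 ≤ S := by
    rw [hSd]
    exact Finset.sum_nonneg fun n _ => mul_nonneg (norm_nonneg _) (pow_nonneg hR.le _)
  have hS1 : 0 < S + 1 := by linarith
  refine ⟨(η' - η * R) / (S + 1), div_pos (by linarith) hS1, ?_⟩
  intro w hw hw2
  obtain ⟨t, htd⟩ : ∃ t : ℝ, t = ‖w‖ / R := ⟨_, rfl⟩
  have ht0 : 0 ≤ t := by rw [htd]; positivity
  have ht1 : t < 1 := by rw [htd]; exact (div_lt_one hR).2 hw
  have htR : t * R = ‖w‖ := by rw [htd]; field_simp
  have h1 := Complex.hasSum_taylorSeries_on_ball hφ (z := w) (by simpa using hw)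
  have h2 : HasSum (fun n => (if n < N then ‖b n‖ * R ^ n else 0) + η * t ^ n)
      (S + η * (1 - t)⁻¹) := by
    refine HasSum.add ?_ ((hasSum_geometric_of_lt_one ht0 ht1).mul_left η)
    have h3 : S = ∑ n ∈ Finset.range N, (if n < N then ‖b n‖ * R ^ n else 0) := by
      rw [hSd]
      refine Finset.sum_congr rfl fun n hn => ?_
      rw [if_pos (Finset.mem_range.1 hn)]
    rw [h3]
    refine hasSum_sum_of_ne_finset_zero fun n hn => ?_
    rw [if_neg]
    intro h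
    exact hn (Finset.mem_range.2 h)
  have h3 : ‖φ w‖ ≤ S + η * (1 - t)⁻¹ := by
    refine HasSum.norm_le_of_bounded h1 h2 fun n => ?_
    have h4 : ‖((n.factorial : ℂ))⁻¹ • (w - 0) ^ n • iteratedDeriv n φ 0‖ =
        ‖b n‖ * R ^ n * t ^ n := by
      rw [hbd, mul_assoc, ← mul_pow, mul_comm R t, htR, norm_smul, norm_smul, norm_pow, sub_zero,
        norm_inv, norm_div]
      field_simp
    rw [h4]
    have h5 : 0 ≤ ‖b n‖ * R ^ n := mul_nonneg (norm_nonneg _) (pow_nonneg hR.le _)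
    have h6 : 0 ≤ t ^ n := pow_nonneg ht0 _
    by_cases hn : n < N
    · rw [if_pos hn]
      have h7 : ‖b n‖ * R ^ n * t ^ n ≤ ‖b n‖ * R ^ n :=
        mul_le_of_le_one_right h5 (pow_le_one₀ ht0 ht1.le)
      have h8 : 0 ≤ η * t ^ n := mul_nonneg hη h6
      linarith
    · rw [if_neg hn, zero_add]
      have h9 := hN n (by omega)
      rw [hbd]
      exact mul_le_mul_of_nonneg_right h9 h6
  have h10 : 0 < R - ‖w‖ := by linarith
  have h11 : (R - ‖w‖) * (S + η * (1 - t)⁻¹) = (R - ‖w‖) * S + η * R := by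
    have h12 : R - ‖w‖ = R * (1 - t) := by
      rw [mul_sub, mul_one, mul_comm R t, htR]
    have h13 : (1 - t) ≠ 0 := by linarith
    rw [mul_add]
    congr 1
    rw [h12]
    field_simp
  have h14 : (R - ‖w‖) * ‖φ w‖ ≤ (R - ‖w‖) * S + η * R := by
    rw [← h11]
    exact mul_le_mul_of_nonneg_left h3 h10.le
  have h15 : (R - ‖w‖) * (S + 1) ≤ η' - η * R := by
    have h16 : R - ‖w‖ ≤ (η' - η * R) / (S + 1) := by linarith
    exact (le_div_iff₀ hS1).1 h16
  nlinarith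

end Pool.Agent.Y564.SF.Lo2
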